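import Pool.Agent.Helper13.TW.StD

/-!
# Project TW, module CMP: components of a simple closed curve in an open set
-/

set_option autoImplicit false

namespace Pool.Agent.Helper75.TW

open Set Topology Pool.Agent.Helper13.TR Pool.Agent.Helper13.TW

/-- The data of a closed curve, parametrized by `[0,1]`. -/
private structure Cur {S : Type} [MetricSpace S] (K : Set S) (g : ℝ → S) : Prop where
  cont : Continuous g
  img : g '' Icc (0 : ℝ) 1 = K
  inj : ∀ s ∈ Icc (0 : ℝ) 1, ∀ t ∈ Icc (0 : ℝ) 1, g s = g t → s = t ∨ (s = 0 ∧ t = 1) ∨ (s = 1 ∧ t = 0)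

private theorem cur_of_spl {S : Type} [MetricSpace S] {K : Set S} {p q : S} {D₁ D₂ : Set S}
    (h : Spl K p q D₁ D₂) : ∃ g : ℝ → S, Cur K g ∧ g 0 = p ∧ g 1 = p ∧ g (1 / 2) = q := by
  obtain ⟨⟨γ₁, i₁, e₁⟩, ⟨γ₂, i₂, e₂⟩, hint, hun⟩ := h
  classical
  have E1 : ∀ t : ℝ, ∀ ht : t ∈ Icc (0 : ℝ) 1, γ₁.extend t = γ₁ ⟨t, ht⟩ := fun t ht => γ₁.extend_apply ht
  have E2 : ∀ t : ℝ, ∀ ht : t ∈ Icc (0 : ℝ) 1, γ₂.extend t = γ₂ ⟨t, ht⟩ := fun t ht => γ₂.extend_apply ht
  have hpq : ∀ t : ℝ, t ∈ Icc (0 : ℝ) 1 → γ₁.extend t = p → t = 0 := by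
    intro t ht h
    rw [E1 t ht] at h
    have h' : γ₁ ⟨t, ht⟩ = γ₁ 0 := by rw [h, γ₁.source]
    have := i₁ h'
    exact congrArg Subtype.val this
  have hpq' : ∀ t : ℝ, t ∈ Icc (0 : ℝ) 1 → γ₁.extend t = q → t = 1 := by
    intro t ht h
    rw [E1 t ht] at h
    have h' : γ₁ ⟨t, ht⟩ = γ₁ 1 := by rw [h, γ₁.target]
    have := i₁ h'
    exact congrArg Subtype.val this
  have hpr : ∀ t : ℝ, t ∈ Icc (0 : ℝ) 1 → γ₂.extend t = p → t = 0 := by
    intro t ht h
    rw [E2 t ht] at h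
    have h' : γ₂ ⟨t, ht⟩ = γ₂ 0 := by rw [h, γ₂.source]
    have := i₂ h'
    exact congrArg Subtype.val this
  have hpr' : ∀ t : ℝ, t ∈ Icc (0 : ℝ) 1 → γ₂.extend t = q → t = 1 := by
    intro t ht h
    rw [E2 t ht] at h
    have h' : γ₂ ⟨t, ht⟩ = γ₂ 1 := by rw [h, γ₂.target]
    have := i₂ h'
    exact congrArg Subtype.val this
  have inj1 : ∀ s ∈ Icc (0 : ℝ) 1, ∀ t ∈ Icc (0 : ℝ) 1, γ₁.extend s = γ₁.extend t → s = t := by
    intro s hs t ht h
    rw [E1 s hs, E1 t ht] at h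
    exact congrArg Subtype.val (i₁ h)
  have inj2 : ∀ s ∈ Icc (0 : ℝ) 1, ∀ t ∈ Icc (0 : ℝ) 1, γ₂.extend s = γ₂.extend t → s = t := by
    intro s hs t ht h
    rw [E2 s hs, E2 t ht] at h
    exact congrArg Subtype.val (i₂ h)
  have mem1 : ∀ t ∈ Icc (0 : ℝ) 1, γ₁.extend t ∈ D₁ := by
    intro t ht
    rw [E1 t ht, ← e₁]
    exact mem_range_self _
  have mem2 : ∀ t ∈ Icc (0 : ℝ) 1, γ₂.extend t ∈ D₂ := by
    intro t ht
    rw [E2 t ht, ← e₂]
    exact mem_range_self _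
  set g : ℝ → S := fun t => if t ≤ 1 / 2 then γ₁.extend (2 * t) else γ₂.extend (2 - 2 * t) with hgdef
  have g1 : ∀ t : ℝ, t ≤ 1 / 2 → g t = γ₁.extend (2 * t) := fun t ht => if_pos ht
  have g2 : ∀ t : ℝ, ¬ t ≤ 1 / 2 → g t = γ₂.extend (2 - 2 * t) := fun t ht => if_neg ht
  have hc : Continuous g := by
    refine Continuous.if_le (γ₁.continuous_extend.comp (by fun_prop)) (γ₂.continuous_extend.comp (by fun_prop))
      continuous_id continuous_const ?_
    intro t ht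
    have ht' : t = 1 / 2 := ht
    have a1 : 2 * t = 1 := by rw [ht']; norm_num
    have a2 : 2 - 2 * t = 1 := by rw [ht']; norm_num
    show γ₁.extend (2 * t) = γ₂.extend (2 - 2 * t)
    rw [a2, a1, γ₁.extend_one, γ₂.extend_one]
  refine ⟨g, ⟨hc, ?_, ?_⟩, ?_, ?_, ?_⟩
  · rw [← hun]
    ext x
    constructor
    · rintro ⟨t, ht, rfl⟩
      by_cases h : t ≤ 1 / 2
      · left
        rw [g1 t h]
        exact mem1 _ ⟨by linarith [ht.1], by linarith⟩
      · right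
        rw [g2 t h]
        push Not at h
        exact mem2 _ ⟨by linarith [ht.2], by linarith⟩
    · rintro (hx | hx)
      · rw [← e₁] at hx
        obtain ⟨u, rfl⟩ := hx
        refine ⟨(u : ℝ) / 2, ⟨by linarith [u.2.1], by linarith [u.2.2]⟩, ?_⟩
        rw [g1 _ (by linarith [u.2.2])]
        have : (2 * ((u : ℝ) / 2)) = (u : ℝ) := by ring
        rw [this, E1 _ u.2]
      · rw [← e₂] at hx
        obtain ⟨u, rfl⟩ := hx
        by_cases hu : (u : ℝ) = 1
        · have hu' : u = 1 := Subtype.ext hu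
          refine ⟨1 / 2, ⟨by norm_num, by norm_num⟩, ?_⟩
          rw [g1 _ le_rfl]
          have : (2 * (1 / 2) : ℝ) = 1 := by norm_num
          rw [this, γ₁.extend_one, hu', γ₂.target]
        · have hu1 : (u : ℝ) < 1 := lt_of_le_of_ne u.2.2 hu
          refine ⟨1 - (u : ℝ) / 2, ⟨by linarith [u.2.2], by linarith [u.2.1]⟩, ?_⟩
          rw [g2 _ (by push Not; linarith)]
          have : (2 - 2 * (1 - (u : ℝ) / 2)) = (u : ℝ) := by ring
          rw [this, E2 _ u.2]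
  · intro s hs t ht hst
    have key : ∀ s ∈ Icc (0 : ℝ) 1, ∀ t ∈ Icc (0 : ℝ) 1, s ≤ 1 / 2 → ¬ t ≤ 1 / 2 → g s = g t → s = 0 ∧ t = 1 := by
      intro s hs t ht h1 h2 hst
      rw [g1 s h1, g2 t h2] at hst
      push Not at h2
      have ms : 2 * s ∈ Icc (0 : ℝ) 1 := ⟨by linarith [hs.1], by linarith⟩
      have mt : 2 - 2 * t ∈ Icc (0 : ℝ) 1 := ⟨by linarith [ht.2], by linarith⟩
      have hm : γ₁.extend (2 * s) ∈ D₁ ∩ D₂ := ⟨mem1 _ ms, by rw [hst]; exact mem2 _ mt⟩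
      rw [hint] at hm
      rcases hm with hm | hm
      · have a1 := hpq _ ms hm
        have a2 := hpr _ mt (by rw [← hst]; exact hm)
        exact ⟨by linarith, by linarith⟩
      · have hm' : γ₁.extend (2 * s) = q := hm
        have a2 := hpr' _ mt (by rw [← hst]; exact hm')
        exfalso
        linarith
    by_cases h1 : s ≤ 1 / 2
    · by_cases h2 : t ≤ 1 / 2
      · left
        rw [g1 s h1, g1 t h2] at hst
        have := inj1 _ ⟨by linarith [hs.1], by linarith⟩ _ ⟨by linarith [ht.1], by linarith⟩ hst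
        linarith
      · exact Or.inr (Or.inl (key s hs t ht h1 h2 hst))
    · by_cases h2 : t ≤ 1 / 2
      · have := key t ht s hs h2 h1 hst.symm
        exact Or.inr (Or.inr ⟨this.2, this.1⟩)
      · left
        rw [g2 s h1, g2 t h2] at hst
        push Not at h1 h2
        have := inj2 _ ⟨by linarith [hs.2], by linarith⟩ _ ⟨by linarith [ht.2], by linarith⟩ hst
        linarith
  · rw [g1 0 (by norm_num), mul_zero, γ₁.extend_zero]
  · rw [g2 1 (by norm_num)]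
    have : (2 - 2 * 1 : ℝ) = 0 := by norm_num
    rw [this, γ₂.extend_zero]
  · rw [g1 _ le_rfl]
    have : (2 * (1 / 2) : ℝ) = 1 := by norm_num
    rw [this, γ₁.extend_one]

/-- the left end of the interval -/
private theorem left_end {S : Type} [MetricSpace S] {g : ℝ → S} (hg : Continuous g) {U : Set S} (hU : IsOpen U)
    {c t : ℝ} (hct : c ≤ t) (hc : g c ∉ U) (ht : g t ∈ U) :
    ∃ a, c ≤ a ∧ a < t ∧ g a ∉ U ∧ ∀ s, a < s → s ≤ t → g s ∈ U := by
  have hcl : IsClosed (Icc c t ∩ g ⁻¹' Uᶜ) := isClosed_Icc.inter (hU.isClosed_compl.preimage hg)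
  have hcp : IsCompact (Icc c t ∩ g ⁻¹' Uᶜ) := isCompact_Icc.inter_right (hU.isClosed_compl.preimage hg)
  have hne : (Icc c t ∩ g ⁻¹' Uᶜ).Nonempty := ⟨c, ⟨le_rfl, hct⟩, hc⟩
  obtain ⟨a, ha⟩ := hcp.exists_isGreatest hne
  have ham := ha.1
  refine ⟨a, ham.1.1, lt_of_le_of_ne ham.1.2 ?_, ham.2, ?_⟩
  · intro h
    exact ham.2 (by rw [h]; exact ht)
  · intro s h1 h2
    by_contra h3
    exact absurd (ha.2 ⟨⟨le_trans ham.1.1 h1.le, h2⟩, h3⟩) (not_le.2 h1)

/-- the right end of the interval -/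
private theorem right_end {S : Type} [MetricSpace S] {g : ℝ → S} (hg : Continuous g) {U : Set S} (hU : IsOpen U)
    {c t : ℝ} (hct : t ≤ c) (hc : g c ∉ U) (ht : g t ∈ U) :
    ∃ b, b ≤ c ∧ t < b ∧ g b ∉ U ∧ ∀ s, t ≤ s → s < b → g s ∈ U := by
  obtain ⟨a, h1, h2, h3, h4⟩ := left_end (g := fun x => g (-x)) (hg.comp continuous_neg) hU (c := -c) (t := -t)
    (by linarith) (by simpa using hc) (by simpa using ht)
  refine ⟨-a, by linarith, by linarith, h3, ?_⟩
  intro s h5 h6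
  have := h4 (-s) (by linarith) (by linarith)
  simpa using this

/-- the interval around a parameter -/
private theorem interval {S : Type} [MetricSpace S] {K : Set S} {g : ℝ → S} (C : Cur K g) {U : Set S} (hU : IsOpen U)
    (h0 : g 0 ∉ U) (h1 : g 1 ∉ U) (hh : g (1 / 2) ∉ U) {t : ℝ} (ht : t ∈ Icc (0 : ℝ) 1) (htU : g t ∈ U) :
    ∃ a b, 0 ≤ a ∧ a < t ∧ t < b ∧ b ≤ 1 ∧ g a ∉ U ∧ g b ∉ U ∧ (∀ s ∈ Ioo a b, g s ∈ U) ∧ ¬ (a = 0 ∧ b = 1) := by
  obtain ⟨a, a1, a2, a3, a4⟩ := left_end C.cont hU ht.1 h0 htU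
  obtain ⟨b, b1, b2, b3, b4⟩ := right_end C.cont hU ht.2 h1 htU
  have hin : ∀ s ∈ Ioo a b, g s ∈ U := by
    intro s hs
    rcases le_total s t with h | h
    · exact a4 s hs.1 h
    · exact b4 s h hs.2
  refine ⟨a, b, a1, a2, b2, b1, a3, b3, hin, ?_⟩
  rintro ⟨rfl, rfl⟩
  exact hh (hin _ ⟨by norm_num, by norm_num⟩)

/-- all facts on one component -/
private theorem comp_facts {S : Type} [MetricSpace S] {K : Set S} {g : ℝ → S} (C : Cur K g) {U : Set S}
    {a b : ℝ} (ha : 0 ≤ a) (hab : a < b) (hb : b ≤ 1) (hga : g a ∉ U) (hgb : g b ∉ U)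
    (hin : ∀ s ∈ Ioo a b, g s ∈ U) (hn : ¬ (a = 0 ∧ b = 1)) :
    IsArc (g '' Icc a b) (g a) (g b) ∧ (g '' Icc a b) \ {g a, g b} = g '' Ioo a b ∧
      IsClosed (K \ (g '' Ioo a b)) ∧ g '' Ioo a b ⊆ K ∩ U ∧
      ∀ z ∈ g '' Ioo a b, connectedComponentIn (K ∩ U) z = g '' Ioo a b := by
  have sub : ∀ s ∈ Icc a b, s ∈ Icc (0 : ℝ) 1 := fun s hs => ⟨le_trans ha hs.1, le_trans hs.2 hb⟩
  have injab : ∀ s ∈ Icc a b, ∀ t ∈ Icc a b, g s = g t → s = t := by
    intro s hs t ht h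
    rcases C.inj s (sub s hs) t (sub t ht) h with h1 | ⟨h1, h2⟩ | ⟨h1, h2⟩
    · exact h1
    · exfalso
      apply hn
      constructor
      · have := hs.1
        linarith
      · have := ht.2
        linarith
    · exfalso
      apply hn
      constructor
      · have := ht.1
        linarith
      · have := hs.2
        linarith
  have hdiff : (g '' Icc a b) \ {g a, g b} = g '' Ioo a b := by
    ext x
    constructor
    · rintro ⟨⟨t, ht, rfl⟩, hx⟩
      refine ⟨t, ⟨lt_of_le_of_ne ht.1 ?_, lt_of_le_of_ne ht.2 ?_⟩, rfl⟩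
      · intro h
        exact hx (by rw [h]; exact Or.inl rfl)
      · intro h
        exact hx (by rw [h]; exact Or.inr rfl)
    · rintro ⟨t, ht, rfl⟩
      refine ⟨⟨t, ⟨ht.1.le, ht.2.le⟩, rfl⟩, ?_⟩
      rintro (h | h)
      · exact absurd (injab t ⟨ht.1.le, ht.2.le⟩ a ⟨le_rfl, hab.le⟩ h) (ne_of_gt ht.1)
      · exact absurd (injab t ⟨ht.1.le, ht.2.le⟩ b ⟨hab.le, le_rfl⟩ h) (ne_of_lt ht.2)
  have hKR : K \ (g '' Ioo a b) = g '' (Icc 0 a ∪ Icc b 1) := by
    rw [← C.img]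
    ext x
    constructor
    · rintro ⟨⟨t, ht, rfl⟩, hx⟩
      refine ⟨t, ?_, rfl⟩
      by_contra hc
      simp only [mem_union, mem_Icc, not_or, not_and, not_le] at hc
      exact hx ⟨t, ⟨hc.1 ht.1, by
        by_contra h
        push Not at h
        exact absurd (hc.2 h) (not_lt.2 ht.2)⟩, rfl⟩
    · rintro ⟨t, ht, rfl⟩
      have ht01 : t ∈ Icc (0 : ℝ) 1 := by
        rcases ht with ht | ht
        · exact ⟨ht.1, by linarith [ht.2]⟩
        · exact ⟨by linarith [ht.1], ht.2⟩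
      refine ⟨⟨t, ht01, rfl⟩, ?_⟩
      rintro ⟨s, hs, hst⟩
      rcases C.inj s (sub s ⟨hs.1.le, hs.2.le⟩) t ht01 hst with h1 | ⟨h1, h2⟩ | ⟨h1, h2⟩
      · subst h1
        rcases ht with ht | ht
        · exact absurd ht.2 (not_le.2 hs.1)
        · exact absurd ht.1 (not_le.2 hs.2)
      · have := hs.1
        linarith
      · have := hs.2
        linarith
  have hRcl : IsClosed (g '' (Icc 0 a ∪ Icc b 1)) :=
    ((isCompact_Icc.union isCompact_Icc).image C.cont).isClosed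
  have hPcl : IsClosed (g '' Icc a b) := (isCompact_Icc.image C.cont).isClosed
  have hsubKU : g '' Ioo a b ⊆ K ∩ U := by
    rintro x ⟨t, ht, rfl⟩
    refine ⟨?_, hin t ht⟩
    rw [← C.img]
    exact ⟨t, sub t ⟨ht.1.le, ht.2.le⟩, rfl⟩
  refine ⟨?_, hdiff, ?_, hsubKU, ?_⟩
  · refine ⟨⟨⟨fun s => g (a + (s : ℝ) * (b - a)), by
        have := C.cont
        fun_prop⟩, by simp, by simp⟩, ?_, ?_⟩
    · intro s t h
      have h' : g (a + (s : ℝ) * (b - a)) = g (a + (t : ℝ) * (b - a)) := h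
      have hb0 : 0 < b - a := by linarith
      have m : ∀ u : unitInterval, a + (u : ℝ) * (b - a) ∈ Icc a b := by
        intro u
        have h1 := u.2.1
        have h2 := u.2.2
        constructor
        · nlinarith
        · nlinarith
      have := injab _ (m s) _ (m t) h'
      have h3 : ((s : ℝ) - t) * (b - a) = 0 := by linarith
      rcases mul_eq_zero.1 h3 with h4 | h4
      · exact Subtype.ext (by linarith)
      · linarith
    · ext x
      constructor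
      · rintro ⟨s, rfl⟩
        have h1 := s.2.1
        have h2 := s.2.2
        refine ⟨a + (s : ℝ) * (b - a), ⟨by nlinarith, by nlinarith⟩, rfl⟩
      · rintro ⟨t, ht, rfl⟩
        have hb0 : 0 < b - a := by linarith
        refine ⟨⟨(t - a) / (b - a), ⟨div_nonneg (by linarith [ht.1]) hb0.le, (div_le_one hb0).2 (by linarith [ht.2])⟩⟩, ?_⟩
        show g (a + ((t - a) / (b - a)) * (b - a)) = g t
        rw [div_mul_cancel₀ _ hb0.ne']
        congr 1
        ring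
  · rw [hKR]
    exact hRcl
  · intro z hz
    apply Subset.antisymm
    · have hpc : IsPreconnected (connectedComponentIn (K ∩ U) z) := isPreconnected_connectedComponentIn
      have hsub : connectedComponentIn (K ∩ U) z ⊆ K ∩ U := connectedComponentIn_subset _ _
      intro x hx
      by_contra hxn
      have hxK := (hsub hx).1
      have hxR : x ∈ g '' (Icc 0 a ∪ Icc b 1) := by
        rw [← hKR]
        exact ⟨hxK, hxn⟩
      have hcov : connectedComponentIn (K ∩ U) z ⊆ g '' Icc a b ∪ g '' (Icc 0 a ∪ Icc b 1) := by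
        intro y hy
        by_cases h : y ∈ g '' Ioo a b
        · left
          exact image_mono Ioo_subset_Icc_self h
        · right
          rw [← hKR]
          exact ⟨(hsub hy).1, h⟩
      obtain ⟨y, hy, hy1, hy2⟩ := isPreconnected_closed_iff.1 hpc _ _ hPcl hRcl hcov
        ⟨z, mem_connectedComponentIn (hsubKU hz), image_mono Ioo_subset_Icc_self hz⟩ ⟨x, hx, hxR⟩
      have hyU : y ∈ U := (hsub hy).2
      rw [← hKR] at hy2
      have : y ∈ (g '' Icc a b) \ {g a, g b} := by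
        refine ⟨hy1, ?_⟩
        rintro (h | h)
        · exact hga (by rw [← h]; exact hyU)
        · have h' : y = g b := h
          exact hgb (by rw [← h']; exact hyU)
      rw [hdiff] at this
      exact hy2.2 this
    · exact IsPreconnected.subset_connectedComponentIn (isPreconnected_Ioo.image _ C.cont.continuousOn) hz hsubKU

/-- the general topology part -/
private theorem core {S : Type} [MetricSpace S] {K : Set S} {g : ℝ → S} (C : Cur K g) {U : Set S} (hU : IsOpen U)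
    (h0 : g 0 ∉ U) (h1 : g 1 ∉ U) (hh : g (1 / 2) ∉ U) :
    ∀ z ∈ K ∩ U, ∃ a b, 0 ≤ a ∧ a < b ∧ b ≤ 1 ∧ g a ∉ U ∧ g b ∉ U ∧ IsArc (g '' Icc a b) (g a) (g b) ∧
      (g '' Icc a b) \ {g a, g b} = g '' Ioo a b ∧
      IsClosed (K \ (g '' Ioo a b)) ∧ g '' Ioo a b ⊆ K ∩ U ∧ z ∈ g '' Ioo a b ∧
      ∀ y ∈ g '' Ioo a b, connectedComponentIn (K ∩ U) y = g '' Ioo a b := by
  rintro z ⟨hzK, hzU⟩
  rw [← C.img] at hzK
  obtain ⟨t, ht, rfl⟩ := hzK
  obtain ⟨a, b, e1, e2, e3, e4, e5, e6, e7, e8⟩ := interval C hU h0 h1 hh ht hzU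
  obtain ⟨f1, f2, f3, f4, f5⟩ := comp_facts C e1 (e2.trans e3) e4 e5 e6 e7 e8
  exact ⟨a, b, e1, e2.trans e3, e4, e5, e6, f1, f2, f3, f4, ⟨t, ⟨e2, e3⟩, rfl⟩, f5⟩

theorem hCMP (_hARB : StARB) (hSCL : StSCL) (hTWO : StTWO) (hCLS : StCLS) : StCMP := by
  intro S _ _ _ ω V hGR J hJ K hK hr
  obtain ⟨r₁, r₂, hne, hr₁, hr₂⟩ := hr
  obtain ⟨⟨hUo, -⟩, -, -, -, -⟩ := hTWO S ω V hGR J hJ
  obtain ⟨-, -, hclo⟩ := hCLS S ω V hGR J hJ
  set U : Set S := Ins ω J with hUdef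
  have hJU : ∀ x ∈ J, x ∉ U := fun x hx hxU => hxU.1 hx
  have hcl : ∀ x ∈ closure U, x ∉ U → x ∈ J := by
    intro x hx hxU
    rw [hclo] at hx
    rcases hx with hx | hx
    · exact hx
    · exact absurd hx hxU
  obtain ⟨D₁, D₂, hspl⟩ := (hSCL S K hK).1 r₁ hr₁.1 r₂ hr₂.1 hne
  obtain ⟨g, C, g0, g1, gh⟩ := cur_of_spl hspl
  have h0 : g 0 ∉ U := by rw [g0]; exact hr₁.2
  have h1 : g 1 ∉ U := by rw [g1]; exact hr₁.2
  have hh : g (1 / 2) ∉ U := by rw [gh]; exact hr₂.2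
  have hcore := core C hUo h0 h1 hh
  refine ⟨?_, ?_, ?_⟩
  · intro z hz
    obtain ⟨a, b, ha, hab, hb, hga, hgb, harc, hdiff, hclosed, hsub, hzin, hcomp⟩ := hcore z hz
    have hgaJ : g a ∈ J := by
      refine hcl _ ?_ hga
      have h : a ∈ closure (Ioo a b) := by
        rw [closure_Ioo hab.ne]
        exact ⟨le_rfl, hab.le⟩
      have h' := map_mem_closure C.cont h (t := U) (fun s hs => (hsub ⟨s, hs, rfl⟩).2)
      exact h'
    have hgbJ : g b ∈ J := by
      refine hcl _ ?_ hgb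
      have h : b ∈ closure (Ioo a b) := by
        rw [closure_Ioo hab.ne]
        exact ⟨hab.le, le_rfl⟩
      have h' := map_mem_closure C.cont h (t := U) (fun s hs => (hsub ⟨s, hs, rfl⟩).2)
      exact h'
    refine ⟨g a, g b, g '' Icc a b, ⟨harc, ?_, ?_⟩, image_mono Ioo_subset_Icc_self hzin, ?_, ?_, ?_⟩
    · apply Subset.antisymm
      · rintro x ⟨hx1, hx2⟩
        by_contra hxn
        have : x ∈ (g '' Icc a b) \ {g a, g b} := ⟨hx1, hxn⟩
        rw [hdiff] at this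
        exact hJU x hx2 (hsub this).2
      · rintro x (rfl | hx)
        · exact ⟨⟨a, ⟨le_rfl, hab.le⟩, rfl⟩, hgaJ⟩
        · have hx' : x = g b := hx
          rw [hx']
          exact ⟨⟨b, ⟨hab.le, le_rfl⟩, rfl⟩, hgbJ⟩
    · rw [hdiff]
      exact fun x hx => (hsub hx).2
    · rintro x ⟨t, ht, rfl⟩
      rw [← C.img]
      exact ⟨t, ⟨le_trans ha ht.1, le_trans ht.2 hb⟩, rfl⟩
    · rw [hdiff]
      exact hclosed
    · rw [hdiff]
      exact hcomp z hzin
  · intro α hα hαU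
    -- the parameters of `K ∩ α`
    have hT : IsCompact (Icc (0 : ℝ) 1 ∩ g ⁻¹' α) := isCompact_Icc.inter_right (hα.isClosed.preimage C.cont)
    have hex : ∀ t : ℝ, ∃ O : Set ℝ, IsOpen O ∧ (t ∈ Icc (0 : ℝ) 1 ∩ g ⁻¹' α → t ∈ O) ∧
        ∀ s ∈ O, connectedComponentIn (K ∩ U) (g s) = connectedComponentIn (K ∩ U) (g t) := by
      intro t
      by_cases ht : t ∈ Icc (0 : ℝ) 1 ∩ g ⁻¹' α
      · have htU : g t ∈ U := hαU ht.2
        obtain ⟨a, b, e1, e2, e3, e4, e5, e6, e7, e8⟩ := interval C hUo h0 h1 hh ht.1 htU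
        obtain ⟨-, -, -, -, f5⟩ := comp_facts C e1 (e2.trans e3) e4 e5 e6 e7 e8
        refine ⟨Ioo a b, isOpen_Ioo, fun _ => ⟨e2, e3⟩, fun s hs => ?_⟩
        rw [f5 _ ⟨s, hs, rfl⟩, f5 _ ⟨t, ⟨e2, e3⟩, rfl⟩]
      · exact ⟨∅, isOpen_empty, fun h => absurd h ht, fun s hs => absurd hs (notMem_empty s)⟩
    choose O hO hO1 hO2 using hex
    obtain ⟨F, hF⟩ := hT.elim_finite_subcover O hO (fun t ht => mem_iUnion.2 ⟨t, hO1 t ht⟩)
    refine Set.Finite.subset (F.finite_toSet.image fun t => connectedComponentIn (K ∩ U) (g t)) ?_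
    rintro D ⟨z, ⟨hzK, hzα⟩, rfl⟩
    rw [← C.img] at hzK
    obtain ⟨t, ht, rfl⟩ := hzK
    obtain ⟨i, hi, hti⟩ : ∃ i ∈ F, t ∈ O i := by
      have := hF ⟨ht, hzα⟩
      simpa using this
    exact ⟨i, hi, (hO2 i t hti).symm⟩
  · intro δ hδ
    have huc := isCompact_Icc.uniformContinuousOn_of_continuous (C.cont.continuousOn (s := Icc (0 : ℝ) 1))
    obtain ⟨η, hη, huc'⟩ := Metric.uniformContinuousOn_iff.1 huc (δ / 2) (by linarith)
    have hη2 : 0 < η / 2 := by linarith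
    refine Set.Finite.subset ((Finset.range (⌊1 / (η / 2)⌋₊ + 2)).finite_toSet.image
      fun j : ℕ => connectedComponentIn (K ∩ U) (g ((j : ℝ) * (η / 2)))) ?_
    rintro D ⟨⟨z, hz, rfl⟩, hdiam⟩
    obtain ⟨a, b, ha, hab, hb, hga, hgb, harc, hdiff, hclosed, hsub, hzin, hcomp⟩ := hcore z hz
    rw [hcomp z hzin] at hdiam
    have hlen : η ≤ b - a := by
      by_contra hlt
      push Not at hlt
      have hle : Metric.diam (g '' Ioo a b) ≤ δ / 2 := by
        refine Metric.diam_le_of_forall_dist_le (by linarith) ?_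
        rintro x ⟨s, hs, rfl⟩ y ⟨t, ht, rfl⟩
        refine (huc' s ⟨by linarith [hs.1], by linarith [hs.2]⟩ t ⟨by linarith [ht.1], by linarith [ht.2]⟩ ?_).le
        rw [Real.dist_eq, abs_lt]
        constructor
        · linarith [hs.1, ht.2]
        · linarith [hs.2, ht.1]
      linarith
    have ha' : 0 ≤ a / (η / 2) := div_nonneg ha hη2.le
    have hj1 : a < ((⌊a / (η / 2)⌋₊ + 1 : ℕ) : ℝ) * (η / 2) := by
      have := Nat.lt_floor_add_one (a / (η / 2))
      rw [div_lt_iff₀ hη2] at this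
      push_cast
      exact this
    have hj2 : ((⌊a / (η / 2)⌋₊ + 1 : ℕ) : ℝ) * (η / 2) < b := by
      have := Nat.floor_le ha'
      rw [le_div_iff₀ hη2] at this
      push_cast
      nlinarith
    refine ⟨⌊a / (η / 2)⌋₊ + 1, ?_, ?_⟩
    · have h1 : ⌊a / (η / 2)⌋₊ ≤ ⌊1 / (η / 2)⌋₊ := by
        apply Nat.floor_le_floor
        apply div_le_div_of_nonneg_right _ hη2.le
        linarith
      simp only [Finset.coe_range, mem_Iio]
      omega
    · show connectedComponentIn (K ∩ U) (g (((⌊a / (η / 2)⌋₊ + 1 : ℕ) : ℝ) * (η / 2))) = _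
      rw [hcomp z hzin, hcomp _ ⟨_, ⟨hj1, hj2⟩, rfl⟩]

end Pool.Agent.Helper75.TW
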