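import Pool.Agent.Helper54.PT.Defs

/-!
# Positive proportion of twists: module B16 (from the first moment to the proportion)
-/

set_option autoImplicit false

namespace Pool.Agent.Helper54.PT

open Finset Filter Topology

section

variable {ℓ : ℕ} [Fact ℓ.Prime] {σ : Type} [Fintype σ] [DecidableEq σ] (X : PData ℓ σ) {q : ℕ}
variable {J : Type} [Fintype J] [DecidableEq J] (τ : (J → ZMod ℓ) →+ (J → Option σ → ZMod ℓ))
  (H : (Option σ → J → ZMod ℓ) → (Option σ → J → ZMod ℓ) → (Option σ → ZMod ℓ) → Prop)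

theorem b16_tor_add (D : Finset X.P) (v w : J → ZMod ℓ) :
    tor X τ D (v + w) = tor X τ D v + tor X τ D w := by
  unfold tor
  rw [map_add]
  rfl

theorem b16_tor_smul (D : Finset X.P) (c : ZMod ℓ) (v : J → ZMod ℓ) :
    tor X τ D (c • v) = c • tor X τ D v := by
  have e : τ (c • v) = c • τ v := (AddMonoidHom.toZModLinearMap ℓ τ).map_smul c v
  unfold tor
  rw [e]
  rfl

theorem b16_tor_inj {D : Finset X.P} (hD : D.Nonempty) :
    Function.Injective (tor X τ D) := by
  intro v w h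
  obtain ⟨p, hp⟩ := hD
  have := congrArg (fun x => x.2 ⟨p, hp⟩) h
  exact this

/-- closure under scalars -/
theorem b16_smul (D : Finset X.P)
    (hsub : ∀ x ∈ GD X τ H D, ∀ y ∈ GD X τ H D, x + y ∈ GD X τ H D)
    (h0 : (0 : (Option σ → J → ZMod ℓ) × (D → J → ZMod ℓ)) ∈ GD X τ H D)
    (c : ZMod ℓ) (x : (Option σ → J → ZMod ℓ) × (D → J → ZMod ℓ)) (hx : x ∈ GD X τ H D) :
    c • x ∈ GD X τ H D := by
  have hn : ∀ n : ℕ, n • x ∈ GD X τ H D := by
    intro n
    induction n with
    | zero => rw [zero_smul]; exact h0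
    | succ n ih => rw [succ_nsmul]; exact hsub _ ih _ hx
  have e : c • x = c.val • x := by
    conv_lhs => rw [← ZMod.natCast_zmod_val c]
    rw [Nat.cast_smul_eq_nsmul]
  rw [e]
  exact hn _

theorem b16_card (D : Finset X.P) (hD : D.Nonempty)
    (hsub : ∀ x ∈ GD X τ H D, ∀ y ∈ GD X τ H D, x + y ∈ GD X τ H D)
    (htor : ∀ v : J → ZMod ℓ, tor X τ D v ∈ GD X τ H D) :
    ℓ ^ Fintype.card J ≤ (GD X τ H D).card ∧
      ((¬ ∀ x ∈ GD X τ H D, ∃ v, x = tor X τ D v) →
        ℓ ^ (Fintype.card J + 1) ≤ (GD X τ H D).card) := by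
  have h0 : (0 : (Option σ → J → ZMod ℓ) × (D → J → ZMod ℓ)) ∈ GD X τ H D := by
    have := htor 0
    have e : tor X τ D (0 : J → ZMod ℓ) = 0 := by
      have := b16_tor_smul X τ D (0 : ZMod ℓ) (0 : J → ZMod ℓ)
      rwa [zero_smul, zero_smul] at this
    rwa [e] at this
  constructor
  · have := Finset.card_le_card_of_injOn (s := (univ : Finset (J → ZMod ℓ)))
      (t := GD X τ H D) (tor X τ D) (fun v _ => htor v) ((b16_tor_inj X τ hD).injOn)
    simpa [ZMod.card] using this
  · intro hnot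
    push Not at hnot
    obtain ⟨x, hx, hxt⟩ := hnot
    have hinj : Function.Injective (fun y : (J → ZMod ℓ) × ZMod ℓ => tor X τ D y.1 + y.2 • x) := by
      rintro ⟨v, c⟩ ⟨w, d⟩ h
      simp only at h
      by_cases hcd : c = d
      · subst hcd
        have := b16_tor_inj X τ hD (add_right_cancel h)
        rw [this]
      · exfalso
        have hcd' : c - d ≠ 0 := sub_ne_zero.2 hcd
        have h1 : (c - d) • x = tor X τ D (w - v) := by
          have e1 : tor X τ D w = tor X τ D (w - v) + tor X τ D v := by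
            rw [← b16_tor_add, sub_add_cancel]
          rw [e1] at h
          have h2 : c • x = tor X τ D (w - v) + d • x := by
            have : tor X τ D v + c • x = tor X τ D v + (tor X τ D (w - v) + d • x) := by
              rw [h]; abel
            exact add_left_cancel this
          rw [sub_smul, h2, add_sub_cancel_right]
        apply hxt ((c - d)⁻¹ • (w - v))
        rw [b16_tor_smul, ← h1, smul_smul, inv_mul_cancel₀ hcd', one_smul]
    have := Finset.card_le_card_of_injOn (s := (univ : Finset ((J → ZMod ℓ) × ZMod ℓ)))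
      (t := GD X τ H D) (fun y : (J → ZMod ℓ) × ZMod ℓ => tor X τ D y.1 + y.2 • x)
      (fun y _ => hsub _ (htor y.1) _ (b16_smul X τ H D hsub h0 y.2 x hx)) hinj.injOn
    rw [Finset.card_univ, Fintype.card_prod, Fintype.card_fun, ZMod.card] at this
    rw [pow_succ]
    exact this

open Classical in
/-- B16: from the first moment to the proportion -/
theorem proportion (hX : X.Inputs q)
    (hsub : ∀ D : Finset X.P, ∀ x ∈ GD X τ H D, ∀ y ∈ GD X τ H D, x + y ∈ GD X τ H D)
    (htor : ∀ (D : Finset X.P) (v : J → ZMod ℓ), tor X τ D v ∈ GD X τ H D)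
    (hmom : ∀ ε : ℝ, 0 < ε → ∀ᶠ n : ℕ in atTop, (∑ D ∈ X.sq n, ((GD X τ H D).card : ℝ)) ≤
      (2 * (ℓ : ℝ) ^ Fintype.card J + ε) * (X.sq n).card) (ε : ℝ) (hε : 0 < ε) :
    ∀ᶠ n : ℕ in atTop, ((ℓ - 2 : ℝ) / (ℓ - 1) - ε) * (X.sq n).card ≤
      ((X.sq n).filter fun D => ∀ x ∈ GD X τ H D, ∃ v, x = tor X τ D v).card := by
  have hℓ2 : 2 ≤ ℓ := (Fact.out : ℓ.Prime).two_le
  have hℓ : (2 : ℝ) ≤ ℓ := by exact_mod_cast hℓ2
  set L : ℝ := (ℓ : ℝ) ^ Fintype.card J with hL
  have hL0 : 0 < L := by positivity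
  have h1 := hmom (ε * L * (ℓ - 1)) (by
    have : (0 : ℝ) < ℓ - 1 := by linarith
    positivity)
  filter_upwards [h1, eventually_ge_atTop 1] with n hn hn1
  set good := (X.sq n).filter fun D => ∀ x ∈ GD X τ H D, ∃ v, x = tor X τ D v with hgood
  set bad := (X.sq n).filter fun D => ¬ ∀ x ∈ GD X τ H D, ∃ v, x = tor X τ D v with hbad
  have hne : ∀ D ∈ X.sq n, D.Nonempty := by
    intro D hD
    rw [X.mem_sq] at hD
    rw [Finset.nonempty_iff_ne_empty]
    rintro rfl
    simp [PData.dg] at hD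
    omega
  have hsplit : (good.card : ℝ) + (bad.card : ℝ) = ((X.sq n).card : ℝ) := by
    exact_mod_cast Finset.card_filter_add_card_filter_not (s := X.sq n)
      (fun D => ∀ x ∈ GD X τ H D, ∃ v, x = tor X τ D v)
  have hsum : (∑ D ∈ X.sq n, ((GD X τ H D).card : ℝ)) =
      (∑ D ∈ good, ((GD X τ H D).card : ℝ)) + ∑ D ∈ bad, ((GD X τ H D).card : ℝ) :=
    (Finset.sum_filter_add_sum_filter_not (X.sq n) _ _).symm
  have hg : L * good.card ≤ ∑ D ∈ good, ((GD X τ H D).card : ℝ) := by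
    have : ∀ D ∈ good, L ≤ ((GD X τ H D).card : ℝ) := by
      intro D hD
      have := (b16_card X τ H D (hne D (mem_filter.1 hD).1) (hsub D) (htor D)).1
      rw [hL]
      exact_mod_cast this
    have h2 := Finset.card_nsmul_le_sum good _ L this
    rw [nsmul_eq_mul] at h2
    linarith
  have hb : L * ℓ * bad.card ≤ ∑ D ∈ bad, ((GD X τ H D).card : ℝ) := by
    have : ∀ D ∈ bad, L * ℓ ≤ ((GD X τ H D).card : ℝ) := by
      intro D hD
      have := (b16_card X τ H D (hne D (mem_filter.1 hD).1) (hsub D) (htor D)).2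
        (mem_filter.1 hD).2
      rw [hL, ← pow_succ]
      exact_mod_cast this
    have h2 := Finset.card_nsmul_le_sum bad _ (L * ℓ) this
    rw [nsmul_eq_mul] at h2
    linarith
  rw [hsum] at hn
  set N : ℝ := ((X.sq n).card : ℝ) with hN
  have hN0 : 0 ≤ N := Nat.cast_nonneg _
  -- L * good + L * ℓ * bad ≤ (2 L + ε L (ℓ - 1)) N
  have h3 : L * good.card + L * ℓ * bad.card ≤ (2 * L + ε * L * (ℓ - 1)) * N := by linarith
  have h4 : (good.card : ℝ) + ℓ * bad.card ≤ (2 + ε * (ℓ - 1)) * N := by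
    have : L * ((good.card : ℝ) + ℓ * bad.card) ≤ L * ((2 + ε * (ℓ - 1)) * N) := by
      nlinarith
    exact le_of_mul_le_mul_left this hL0
  have h5 : (bad.card : ℝ) = N - good.card := by linarith
  rw [h5] at h4
  have h6 : (0 : ℝ) < ℓ - 1 := by linarith
  have h7 : (ℓ - 2 : ℝ) * N - ε * (ℓ - 1) * N ≤ (ℓ - 1) * good.card := by nlinarith
  rw [sub_mul, div_mul_eq_mul_div, sub_le_iff_le_add, div_le_iff₀ h6]
  nlinarith

end

end Pool.Agent.Helper54.PT
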