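import Pool.Agent.Helper31.TW.St1

/-!
# Project TW, module PKS: the Parikh set of a context-free language is semilinear
-/

set_option autoImplicit false

namespace Pool.Agent.Helper75.TW
open Pool.Agent.Helper31.TW
open Pool.Agent.Helper22.FL Pool.Agent.Helper22.CS Pool.Agent.Helper15.TS
open scoped Pointwise

private lemma lin_linear {n : ℕ} (c : Fin n → ℕ) (P : Finset (Fin n → ℕ)) :
    IsLinearSet (lin c P) := by
  refine isLinearSet_iff.2 ⟨c, P, ?_⟩
  ext x
  rw [Set.mem_vadd_set]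
  constructor
  · rintro ⟨t, rfl⟩
    refine ⟨∑ p ∈ P, t p • p, ?_, rfl⟩
    refine AddSubmonoid.sum_mem _ fun p hp => ?_
    exact AddSubmonoid.nsmul_mem _ (AddSubmonoid.subset_closure hp) _
  · rintro ⟨y, hy, rfl⟩
    obtain ⟨f, _, hf⟩ := AddSubmonoid.mem_closure_finset.1 hy
    exact ⟨f, by rw [hf]; rfl⟩

theorem hPKS (hPKH : StPKH) : StPKS := by
  intro n L hL
  obtain ⟨R, -, hR⟩ := hPKH n L hL
  have h : parikh '' L = ⋃ r ∈ R, lin r.1 r.2 := by
    ext x
    rw [hR x]
    simp only [Set.mem_iUnion, exists_prop]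
  rw [h]
  exact IsSemilinearSet.biUnion_finset fun r _ => (lin_linear r.1 r.2).isSemilinearSet

end Pool.Agent.Helper75.TW
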