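import Pool.Agent.Helper54.PT.DefsD

set_option autoImplicit false

namespace Pool.Agent.Helper54.PT

open Polynomial Finset Filter Topology Module Pool.Agent.Helper47.BSD

universe u

section Local

variable {k : Type u} [NontriviallyNormedField k] [IsUltrametricDist k] [CompleteSpace k]
  {ℓ : ℕ} {π : k} {ι : Type} [Fintype ι] [DecidableEq ι] {a : ι → ℕ}

omit [IsUltrametricDist k] [CompleteSpace k] in
/-- C4b, closure induction; the point values are a hypothesis -/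
theorem loc_node_of (hℓ : ℓ.Prime) (e : ι → k) (i₁ i₂ : ι)
    (hpt : ∀ d : ι → kˣ, IsPointValue ℓ a e d →
      ∃ (c : ℕ) (w : ι → k), (∀ j, (d j : k) = tt ℓ a e i₁ j ^ c * w j) ∧
        (∀ j, ∃ x : k, x ≠ 0 ∧ ‖w j‖ = ‖x‖ ^ ℓ) ∧ ∃ x : k, w i₁ = w i₂ * x ^ ℓ)
    (d : ι → kˣ) (hd : d ∈ descentGroup ℓ a e) :
    ∃ (c : ℕ) (w : ι → k), (∀ j, (d j : k) = tt ℓ a e i₁ j ^ c * w j) ∧
      (∀ j, ∃ x : k, x ≠ 0 ∧ ‖w j‖ = ‖x‖ ^ ℓ) ∧ ∃ x : k, w i₁ = w i₂ * x ^ ℓ := by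
  have hpow : ∀ c : ι → kˣ, ∃ (n : ℕ) (w : ι → k),
      (∀ j, (((c ^ ℓ : ι → kˣ) j : kˣ) : k) = tt ℓ a e i₁ j ^ n * w j) ∧
      (∀ j, ∃ x : k, x ≠ 0 ∧ ‖w j‖ = ‖x‖ ^ ℓ) ∧ ∃ x : k, w i₁ = w i₂ * x ^ ℓ := by
    intro c
    refine ⟨0, fun j => (c j : k) ^ ℓ, fun j => by simp, fun j => ⟨(c j : k), (c j).ne_zero, ?_⟩,
      (c i₁ : k) / (c i₂ : k), ?_⟩
    · rw [norm_pow]
    · rw [← mul_pow, mul_div_cancel₀ _ (c i₂).ne_zero]
  induction hd using Subgroup.closure_induction with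
  | mem x hx =>
    rcases hx with hx | ⟨c, rfl⟩
    · exact hpt x hx
    · exact hpow c
  | one =>
    have := hpow 1
    rwa [one_pow] at this
  | mul x y _ _ hx hy =>
    obtain ⟨c, w, h1, h2, z, h3⟩ := hx
    obtain ⟨c', w', h1', h2', z', h3'⟩ := hy
    refine ⟨c + c', fun j => w j * w' j, fun j => ?_, fun j => ?_, z * z', ?_⟩
    · rw [Pi.mul_apply, Units.val_mul, h1, h1', pow_add]
      ring
    · obtain ⟨u, hu, hw⟩ := h2 j
      obtain ⟨u', hu', hw'⟩ := h2' j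
      exact ⟨u * u', mul_ne_zero hu hu', by rw [norm_mul, hw, hw', norm_mul, mul_pow]⟩
    · simp only
      rw [h3, h3']
      ring
  | inv x _ hx =>
    obtain ⟨c, w, h1, h2, z, h3⟩ := hx
    have hT : ∀ j, tt ℓ a e i₁ j ^ c ≠ 0 := fun j h => (x j).ne_zero (by rw [h1, h, zero_mul])
    have hw : ∀ j, w j ≠ 0 := fun j h => (x j).ne_zero (by rw [h1, h, mul_zero])
    have hz : z ^ ℓ ≠ 0 := fun h => hw i₁ (by rw [h3, h, mul_zero])
    have hz0 : z ≠ 0 := fun h => hz (by rw [h, zero_pow hℓ.ne_zero])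
    refine ⟨c * (ℓ - 1), fun j => ((tt ℓ a e i₁ j ^ c) ^ ℓ)⁻¹ * (w j)⁻¹, fun j => ?_, fun j => ?_,
      (tt ℓ a e i₁ i₁ ^ c)⁻¹ * tt ℓ a e i₁ i₂ ^ c * z⁻¹, ?_⟩
    · rw [Pi.inv_apply, Units.val_inv_eq_inv_val, h1, pow_mul]
      have h5 : (tt ℓ a e i₁ j ^ c) ^ ℓ = (tt ℓ a e i₁ j ^ c) ^ (ℓ - 1) * tt ℓ a e i₁ j ^ c := by
        rw [← pow_succ, Nat.sub_add_cancel hℓ.one_lt.le]
      simp only
      rw [h5, mul_inv, mul_inv]
      have h6 := pow_ne_zero (ℓ - 1) (hT j)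
      have h7 := hT j
      have h8 := hw j
      field_simp
    · obtain ⟨u, hu, hwu⟩ := h2 j
      refine ⟨(tt ℓ a e i₁ j ^ c)⁻¹ * u⁻¹, mul_ne_zero (inv_ne_zero (hT j)) (inv_ne_zero hu), ?_⟩
      rw [norm_mul, norm_inv, norm_inv, hwu, norm_mul, norm_inv, norm_inv, mul_pow, inv_pow,
        inv_pow, norm_pow]
    · simp only
      rw [h3]
      have h6 := hT i₁
      have h7 := hT i₂
      have h8 := hw i₂
      rw [mul_pow, mul_pow, inv_pow, inv_pow]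
      have h9 := pow_ne_zero ℓ h6
      have h10 := pow_ne_zero ℓ h7
      field_simp

end Local

end Pool.Agent.Helper54.PT
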