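import Pool.Agent.Helper54.PT.Defs

/-!
# Positive proportion of twists: module B11 (Fourier expansion of the conditions `H`)
-/

set_option autoImplicit false

namespace Pool.Agent.Helper54.PT

open Finset Filter Topology

theorem b11_ee_add {ℓ : ℕ} [NeZero ℓ] (x y : ZMod ℓ) : ee (x + y) = ee x * ee y := by
  unfold ee
  exact AddChar.map_add_eq_mul _ x y

theorem b11_ee_sum {ℓ : ℕ} [NeZero ℓ] {α : Type} (s : Finset α) (f : α → ZMod ℓ) :
    ee (∑ i ∈ s, f i) = ∏ i ∈ s, ee (f i) := by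
  classical
  induction s using Finset.induction_on with
  | empty => simp [ee]
  | insert a s ha ih => rw [sum_insert ha, prod_insert ha, b11_ee_add, ih]

theorem b11_one {ℓ : ℕ} [NeZero ℓ] (y : ZMod ℓ) :
    ∑ c : ZMod ℓ, ee (c * y) = if y = 0 then (ℓ : ℂ) else 0 := by
  unfold ee
  have h := AddChar.sum_mulShift y (ZMod.isPrimitive_stdAddChar ℓ)
  rw [h]
  split_ifs
  · rw [ZMod.card]
  · simp

/-- orthogonality in one variable -/
theorem b11_orth {ℓ : ℕ} [NeZero ℓ] {S : Type} [Fintype S] [DecidableEq S] (x : S → ZMod ℓ) :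
    ∑ η : S → ZMod ℓ, ee (∑ s, η s * x s) =
      if x = 0 then (ℓ : ℂ) ^ Fintype.card S else 0 := by
  simp_rw [b11_ee_sum]
  have h := Finset.prod_univ_sum (fun _ : S => (univ : Finset (ZMod ℓ)))
    (fun s c => ee (c * x s))
  rw [Fintype.piFinset_univ] at h
  rw [← h]
  simp_rw [b11_one]
  by_cases hx : x = 0
  · subst hx
    simp
  · rw [if_neg hx]
    obtain ⟨s, hs⟩ := Function.ne_iff.1 hx
    exact Finset.prod_eq_zero (mem_univ s) (if_neg hs)

/-- orthogonality in two variables -/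
theorem b11_orth2 {ℓ : ℕ} [NeZero ℓ] {S J : Type} [Fintype S] [DecidableEq S] [Fintype J]
    [DecidableEq J] (x : S → J → ZMod ℓ) :
    ∑ η : S → J → ZMod ℓ, ee (∑ s, ∑ j, η s j * x s j) =
      if x = 0 then ((ℓ : ℂ) ^ Fintype.card J) ^ Fintype.card S else 0 := by
  have e : ∀ η : S → J → ZMod ℓ, ee (∑ s, ∑ j, η s j * x s j) =
      ∏ s, ee (∑ j, η s j * x s j) := fun η => b11_ee_sum _ _
  simp_rw [e]
  have h := Finset.prod_univ_sum (fun _ : S => (univ : Finset (J → ZMod ℓ)))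
    (fun s c => ee (∑ j, c j * x s j))
  rw [Fintype.piFinset_univ] at h
  rw [← h]
  simp_rw [b11_orth]
  by_cases hx : x = 0
  · subst hx
    simp
  · rw [if_neg hx]
    obtain ⟨s, hs⟩ := Function.ne_iff.1 hx
    exact Finset.prod_eq_zero (mem_univ s) (if_neg hs)

section

variable {ℓ : ℕ} [Fact ℓ.Prime] {σ : Type} [Fintype σ] [DecidableEq σ]
  {J : Type} [Fintype J] [DecidableEq J]
  (H : (Option σ → J → ZMod ℓ) → (Option σ → J → ZMod ℓ) → (Option σ → ZMod ℓ) → Prop)

open Classical in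
/-- Fourier inversion -/
theorem b11_inv (b y : Option σ → J → ZMod ℓ) (κ : Option σ → ZMod ℓ) :
    ∑ η : Option σ → J → ZMod ℓ, ∑ μ : Option σ → ZMod ℓ,
      hatH H b η μ * ee (∑ s, ∑ j, η s j * y s j + ∑ s, μ s * κ s) =
        if H b y κ then 1 else 0 := by
  have hℓ : (ℓ : ℂ) ≠ 0 := by
    exact_mod_cast (Fact.out : ℓ.Prime).ne_zero
  set N : ℂ := (ℓ : ℂ) ^ ((Fintype.card J + 1) * (Fintype.card σ + 1)) with hN
  have hN0 : N ≠ 0 := pow_ne_zero _ hℓ
  have e1 : ∀ (η : Option σ → J → ZMod ℓ) (μ : Option σ → ZMod ℓ),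
      hatH H b η μ * ee (∑ s, ∑ j, η s j * y s j + ∑ s, μ s * κ s) =
      (∑ y' : Option σ → J → ZMod ℓ, ∑ κ' : Option σ → ZMod ℓ, if H b y' κ' then
        ee (∑ s, ∑ j, η s j * (y - y') s j) * ee (∑ s, μ s * (κ - κ') s) else 0) / N := by
    intro η μ
    rw [hatH, div_mul_eq_mul_div, ← hN]
    congr 1
    rw [Finset.sum_mul]
    refine Finset.sum_congr rfl fun y' _ => ?_
    rw [Finset.sum_mul]
    refine Finset.sum_congr rfl fun κ' _ => ?_
    by_cases hH : H b y' κ'
    · rw [if_pos hH, if_pos hH, ← b11_ee_add, ← b11_ee_add]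
      congr 1
      simp only [Pi.sub_apply, mul_sub, Finset.sum_sub_distrib]
      ring
    · rw [if_neg hH, if_neg hH, zero_mul]
  simp_rw [e1]
  simp_rw [← Finset.sum_div]
  rw [div_eq_iff hN0]
  -- exchange the sums
  have e2 : ∑ η : Option σ → J → ZMod ℓ, ∑ μ : Option σ → ZMod ℓ,
      ∑ y' : Option σ → J → ZMod ℓ, ∑ κ' : Option σ → ZMod ℓ, (if H b y' κ' then
        ee (∑ s, ∑ j, η s j * (y - y') s j) * ee (∑ s, μ s * (κ - κ') s) else 0) =
      ∑ y' : Option σ → J → ZMod ℓ, ∑ κ' : Option σ → ZMod ℓ, (if H b y' κ' then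
        (∑ η : Option σ → J → ZMod ℓ, ee (∑ s, ∑ j, η s j * (y - y') s j)) *
          (∑ μ : Option σ → ZMod ℓ, ee (∑ s, μ s * (κ - κ') s)) else 0) := by
    have s1 : ∀ η : Option σ → J → ZMod ℓ, ∑ μ : Option σ → ZMod ℓ,
        ∑ y' : Option σ → J → ZMod ℓ, ∑ κ' : Option σ → ZMod ℓ, (if H b y' κ' then
        ee (∑ s, ∑ j, η s j * (y - y') s j) * ee (∑ s, μ s * (κ - κ') s) else 0) =
        ∑ y' : Option σ → J → ZMod ℓ, ∑ κ' : Option σ → ZMod ℓ, ∑ μ : Option σ → ZMod ℓ,
          (if H b y' κ' then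
        ee (∑ s, ∑ j, η s j * (y - y') s j) * ee (∑ s, μ s * (κ - κ') s) else 0) := by
      intro η
      rw [Finset.sum_comm]
      refine Finset.sum_congr rfl fun y' _ => ?_
      rw [Finset.sum_comm]
    simp_rw [s1]
    rw [Finset.sum_comm]
    refine Finset.sum_congr rfl fun y' _ => ?_
    rw [Finset.sum_comm]
    refine Finset.sum_congr rfl fun κ' _ => ?_
    by_cases hH : H b y' κ'
    · simp only [if_pos hH]
      rw [Finset.sum_mul_sum]
    · simp only [if_neg hH]
      simp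
  rw [e2]
  simp_rw [b11_orth2, b11_orth]
  have e3 : ∀ (y' : Option σ → J → ZMod ℓ) (κ' : Option σ → ZMod ℓ),
      (if H b y' κ' then
        (if y - y' = 0 then ((ℓ : ℂ) ^ Fintype.card J) ^ Fintype.card (Option σ) else 0) *
          (if κ - κ' = 0 then (ℓ : ℂ) ^ Fintype.card (Option σ) else 0) else 0) =
      if y' = y then (if κ' = κ then (if H b y κ then N else 0) else 0) else 0 := by
    intro y' κ'
    by_cases h1 : y' = y
    · subst h1
      by_cases h2 : κ' = κ
      · subst h2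
        simp only [sub_self, if_true]
        by_cases hH : H b y' κ'
        · rw [if_pos hH, if_pos hH, hN, Fintype.card_option, ← pow_mul, ← pow_add]
          congr 1
          ring
        · rw [if_neg hH, if_neg hH]
      · rw [if_neg (show ¬ κ - κ' = 0 from fun h => h2 (sub_eq_zero.1 h).symm)]
        simp [h2]
    · rw [if_neg (show ¬ y - y' = 0 from fun h => h1 (sub_eq_zero.1 h).symm)]
      simp [h1]
  simp_rw [e3]
  simp only [Finset.sum_ite_eq', mem_univ, if_true, Finset.sum_ite_irrel, Finset.sum_const_zero]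
  split_ifs <;> simp

variable (X : PData ℓ σ) (τ : (J → ZMod ℓ) →+ (J → Option σ → ZMod ℓ))

/-- B11: Fourier expansion of the conditions `H` (uses B10) -/
theorem sum_card_GD (n : ℕ)
    (b10 : ∀ (b η : Option σ → J → ZMod ℓ) (μ : Option σ → ZMod ℓ),
      ∑ D ∈ X.sq n, ∑ v : D → J → ZMod ℓ,
        (open Classical in if ∀ p j, pcond X τ b v p j = 0 then
          ee (∑ s, ∑ j, η s j * ysum X v s j + ∑ s, μ s * kap X D s) else 0) =
      X.ZZ (PhiJ (J := J)) (ℓ ^ Fintype.card J) (thet τ b η μ) n) :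
    (∑ D ∈ X.sq n, ((GD X τ H D).card : ℂ)) =
      ∑ b : Option σ → J → ZMod ℓ, ∑ η : Option σ → J → ZMod ℓ, ∑ μ : Option σ → ZMod ℓ,
        hatH H b η μ * X.ZZ (PhiJ (J := J)) (ℓ ^ Fintype.card J) (thet τ b η μ) n := by
  classical
  simp_rw [← b10]
  -- the left hand side
  have e1 : ∀ D : Finset X.P, ((GD X τ H D).card : ℂ) =
      ∑ b : Option σ → J → ZMod ℓ, ∑ v : D → J → ZMod ℓ,
        ∑ η : Option σ → J → ZMod ℓ, ∑ μ : Option σ → ZMod ℓ,
          hatH H b η μ * (if ∀ p j, pcond X τ b v p j = 0 then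
            ee (∑ s, ∑ j, η s j * ysum X v s j + ∑ s, μ s * kap X D s) else 0) := by
    intro D
    rw [GD, Finset.card_filter, Nat.cast_sum]
    rw [← Finset.univ_product_univ, Finset.sum_product]
    refine Finset.sum_congr rfl fun b _ => ?_
    refine Finset.sum_congr rfl fun v _ => ?_
    by_cases hp : ∀ p j, pcond X τ b v p j = 0
    · simp only [hp, implies_true, and_true, if_true]
      rw [b11_inv H b (ysum X v) (kap X D)]
      split_ifs <;> simp
    · simp only [hp, and_false, if_false]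
      simp
  simp_rw [e1]
  -- exchange
  rw [Finset.sum_comm]
  refine Finset.sum_congr rfl fun b _ => ?_
  simp_rw [Finset.mul_sum]
  have e2 : ∀ D : Finset X.P, ∑ v : D → J → ZMod ℓ,
        ∑ η : Option σ → J → ZMod ℓ, ∑ μ : Option σ → ZMod ℓ,
          hatH H b η μ * (if ∀ p j, pcond X τ b v p j = 0 then
            ee (∑ s, ∑ j, η s j * ysum X v s j + ∑ s, μ s * kap X D s) else 0) =
      ∑ η : Option σ → J → ZMod ℓ, ∑ μ : Option σ → ZMod ℓ, ∑ v : D → J → ZMod ℓ,
          hatH H b η μ * (if ∀ p j, pcond X τ b v p j = 0 then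
            ee (∑ s, ∑ j, η s j * ysum X v s j + ∑ s, μ s * kap X D s) else 0) := by
    intro D
    rw [Finset.sum_comm]
    refine Finset.sum_congr rfl fun η _ => ?_
    rw [Finset.sum_comm]
  simp_rw [e2]
  rw [Finset.sum_comm]
  refine Finset.sum_congr rfl fun η _ => ?_
  rw [Finset.sum_comm]

end

end Pool.Agent.Helper54.PT
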